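import Mathlib
import Pool.Agent.H17.PartSum

set_option autoImplicit false

namespace Pool.Agent.Results.MP_62fa17_nt.SumA

def lam {n : ℕ} (l : Fin n → ℕ) (i : ℕ) : ℕ := if h : i - 1 < n then l ⟨i - 1, h⟩ else 0

def a (i : ℕ) : ℚ := if i = 1 then 1 else 2 * i - 3

open Classical in
noncomputable def A (n : ℕ) : ℚ :=
  ∑ l ∈ (Finset.Nat.antidiagonalTuple n n).filter Antitone,
    (1 + (lam l 1 : ℚ)) * (∏ i ∈ Finset.Icc 1 n, ((lam l i).choose (lam l (i + 1)) : ℚ)) *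
      ∏ i ∈ Finset.Icc 1 n, (a i / i) ^ lam l i

open Pool.Agent.H17.PartSum PowerSeries in
theorem result (n : ℕ) (_hn : 1 < n) : A n = 2 ^ n := by
  classical
  have hI : ∀ f : ℕ → ℚ, ∏ i ∈ Finset.Icc 1 n, f i = ∏ i ∈ Finset.range n, f (i + 1) := by
    intro f
    rw [Finset.range_eq_Ico, Finset.prod_Ico_add' f 0 n 1]
    rfl
  have h1 := idA (fun i => a (i + 1) / ((i + 1 : ℕ) : ℚ)) (by simp [a]) (fun i => by
    simp only [a, if_neg (show i + 1 + 1 ≠ 1 by omega)]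
    push_cast
    congr 1 <;> ring)
  have h2 := main n _ 1 (mk fun j => (2 : ℚ) ^ j) (by rw [h1]; exact geom)
  rw [← filt n _ (fun k => 1 ^ k * (1 + k)), coeff_mk] at h2
  rw [← h2, A]
  refine Finset.sum_congr rfl fun l _ => ?_
  rw [hI, hI, one_pow, one_mul]
  rfl

end Pool.Agent.Results.MP_62fa17_nt.SumA
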