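import Mathlib
import Pool.Agent.H17.PartSum

set_option autoImplicit false

namespace Pool.Agent.Results.MP_62fa17_nt.SumB

def lam {n : ℕ} (l : Fin n → ℕ) (i : ℕ) : ℕ := if h : i - 1 < n then l ⟨i - 1, h⟩ else 0

open Classical in
noncomputable def B (n : ℕ) : ℚ :=
  ∑ l ∈ (Finset.Nat.antidiagonalTuple n n).filter Antitone,
    (-1) ^ (1 + lam l 1) * (1 + (lam l 1 : ℚ)) *
      (∏ i ∈ Finset.Icc 1 n, ((lam l i).choose (lam l (i + 1)) : ℚ)) *
      ∏ i ∈ Finset.Icc 1 n, ((2 * (i : ℚ) - 1) / i) ^ lam l i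

open Pool.Agent.H17.PartSum PowerSeries in
theorem result (n : ℕ) (hn : 1 < n) : B n = 0 := by
  classical
  have hI : ∀ f : ℕ → ℚ, ∏ i ∈ Finset.Icc 1 n, f i = ∏ i ∈ Finset.range n, f (i + 1) := by
    intro f
    rw [Finset.range_eq_Ico, Finset.prod_Ico_add' f 0 n 1]
    rfl
  have h1 := idB (fun i => (2 * ((i + 1 : ℕ) : ℚ) - 1) / ((i + 1 : ℕ) : ℚ)) (fun i => by
    push_cast
    congr 1
    ring)
  have h2 := main n _ (-1) (1 - C 2 * X) (by rw [h1, mul_comm]; exact geom)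
  rw [← filt n _ (fun k => (-1) ^ k * (1 + k))] at h2
  have h3 : coeff n (1 - C 2 * X : ℚ⟦X⟧) = 0 := by
    rw [map_sub, coeff_C_mul, coeff_one, coeff_X, if_neg (by omega), if_neg (by omega)]
    simp
  rw [h3] at h2
  rw [← neg_eq_zero, ← h2, B, ← Finset.sum_neg_distrib]
  refine Finset.sum_congr rfl fun l _ => ?_
  rw [hI, hI, pow_add, pow_one, neg_one_mul, neg_mul, neg_mul, neg_mul, neg_neg]
  rfl

end Pool.Agent.Results.MP_62fa17_nt.SumB
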